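import Pool.Agent.U856.BM.Stm2

/-!
# Project BM, package RE: time reversal of chords
-/

set_option autoImplicit false

open Set Filter Topology ComplexConjugate

namespace Pool.Agent.U451.BM.RE

open Pool.Agent.U856.BM

theorem G_neg (w : ℂ) (τ : Bool) (x : ℂ) : G (-w, τ) x = -G (w, τ) x := by
  cases τ <;> simp [G]

theorem dt_neg (z w : ℂ) : dt z (-w) = -dt z w := by
  simp [dt]; ring

theorem cr_neg (z w : ℂ) : cr z (-w) = -cr z w := by
  simp [cr]; ring

theorem cr_comb (z u w : ℂ) (r : ℝ) : cr z (-u + (r : ℂ) * w) = -cr z u + r * cr z w := by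
  simp [cr]; ring

theorem two_dt (n x : ℂ) : ((2 * dt n x : ℝ) : ℂ) = n * conj x + conj n * x := by
  apply Complex.ext
  · simp [dt]; ring
  · simp [dt]; ring

theorem mul_conj_one {n : ℂ} (hn : dt n n = 1) : n * conj n = 1 := by
  have h : n.re * n.re + n.im * n.im = 1 := hn
  apply Complex.ext
  · simp; linarith
  · simp; ring

/-- the reversed state after the reflection -/
theorem G_rs {α : ℝ} {j : Fin 5} (hn : dt (nS α j) (nS α j) = 1) (i : St) (x : ℂ) :
    G (-(rs α j i).1, (rs α j i).2) x =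
      -G i x + ((2 * dt (nS α j) x : ℝ) : ℂ) * G i (nS α j) := by
  have h1 := mul_conj_one hn
  rw [two_dt]
  obtain ⟨w, τ⟩ := i
  cases τ
  · simp only [G, rs, Bool.not_false, if_true, Bool.false_eq_true, if_false, neg_neg, map_pow]
    linear_combination (-(w * conj x)) * h1
  · simp only [G, rs, Bool.not_true, if_true, Bool.false_eq_true, if_false, neg_neg]
    linear_combination (-(w * x)) * h1

theorem nS_unit (α : ℝ) (j : Fin 5) : dt (nS α j) (nS α j) = 1 := by
  fin_cases j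
  · simp [nS, dt]
  · simp [nS, dt]
  · simp [nS, dt]
  · have h := Real.sin_sq_add_cos_sq α
    simp [nS, dt]
    nlinarith
  · simp [nS, dt]

theorem vert {a b v α : ℝ} (hs : Real.sin α ≠ 0) (hc : Real.cos α ≠ 0) (j : Fin 5) :
    dt (nS α j) (vS a b v α j) = oS a b v j ∧ dt (nS α j) (vS a b v α (j + 1)) = oS a b v j := by
  fin_cases j
  · constructor <;> simp [nS, dt, vS, oS]
  · constructor <;> simp [nS, dt, vS, oS]
  · constructor <;> simp [nS, dt, vS, oS]
  · constructor
    · simp [nS, dt, vS, oS]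
      field_simp
    · simp [nS, dt, vS, oS]
      field_simp
  · constructor <;> simp [nS, dt, vS, oS]

theorem rs_rev (α : ℝ) (j : Fin 5) (i : St) : rs α j (-(rs α j i).1, (rs α j i).2) = (-i.1, i.2) := by
  have h1 := mul_conj_one (nS_unit α j)
  obtain ⟨w, τ⟩ := i
  cases τ
  · simp only [rs, Bool.not_false, if_true, Bool.false_eq_true, if_false, neg_neg, map_pow, Bool.not_true,
      Prod.mk.injEq, and_true]
    linear_combination (-(w * (nS α j * conj (nS α j) + 1))) * h1
  · simp only [rs, Bool.not_false, if_true, Bool.false_eq_true, if_false, neg_neg, map_pow, Bool.not_true,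
      Prod.mk.injEq, and_true]
    linear_combination (-(w * (nS α j * conj (nS α j) + 1))) * h1

theorem t_RE' : S_RE := by
  intro a b v α h q hR z z' hz
  have hpi := Real.pi_gt_d2
  obtain ⟨hOk, -⟩ := hR
  obtain ⟨-, -, -, -, -, -, hα1, hα2⟩ := hOk
  have hs : Real.sin α ≠ 0 := (Real.sin_pos_of_pos_of_lt_pi (by linarith) (by linarith)).ne'
  have hc : Real.cos α ≠ 0 := (Real.cos_pos_of_mem_Ioo ⟨by linarith, by linarith⟩).ne'
  refine ⟨?_, ?_, ?_, ?_⟩
  · rintro ⟨j, ⟨hd, hmin, hmax⟩, rfl⟩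
    have hG := fun x => G_rs (nS_unit α j) z.1 x
    set c : ℝ := cr (dd a b) (G z.1 (nS α j)) with hcdef
    have hu : ∀ x, uu a b (-(rs α j z.1).1, (rs α j z.1).2) x = -uu a b z.1 x + 2 * dt (nS α j) x * c := by
      intro x
      rw [uu, hG, cr_comb, uu]
    have hGn : G (-(rs α j z.1).1, (rs α j z.1).2) (nS α j) = G z.1 (nS α j) := by
      rw [hG, nS_unit]
      push_cast
      ring
    obtain ⟨hv1, hv2⟩ := vert (a := a) (b := b) (v := v) hs hc j
    refine ⟨j, ⟨?_, ?_, ?_⟩, ?_⟩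
    · show 0 < dt (dd a b) (G (-(rs α j z.1).1, (rs α j z.1).2) (nS α j))
      rw [hGn]; exact hd
    · show min (uu a b (-(rs α j z.1).1, (rs α j z.1).2) (vS a b v α j))
        (uu a b (-(rs α j z.1).1, (rs α j z.1).2) (vS a b v α (j + 1))) < -(z.2 - 2 * oS a b v j * c)
      rw [hu, hu, hv1, hv2]
      rcases lt_max_iff.1 hmax with h1 | h1
      · exact min_lt_iff.2 (Or.inl (by linarith))
      · exact min_lt_iff.2 (Or.inr (by linarith))
    · show -(z.2 - 2 * oS a b v j * c) < max (uu a b (-(rs α j z.1).1, (rs α j z.1).2) (vS a b v α j))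
        (uu a b (-(rs α j z.1).1, (rs α j z.1).2) (vS a b v α (j + 1)))
      rw [hu, hu, hv1, hv2]
      rcases min_lt_iff.1 hmin with h1 | h1
      · exact lt_max_iff.2 (Or.inl (by linarith))
      · exact lt_max_iff.2 (Or.inr (by linarith))
    · show rev z = (rs α j (-(rs α j z.1).1, (rs α j z.1).2),
        -(z.2 - 2 * oS a b v j * c) -
          2 * oS a b v j * cr (dd a b) (G (-(rs α j z.1).1, (rs α j z.1).2) (nS α j)))
      rw [rs_rev, hGn, rev, ← hcdef]
      simp only [Prod.mk.injEq, true_and]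
      ring
  · show (-z.1.1) ^ (2 * q) = 1
    have hz' : z.1.1 ^ (2 * q) = 1 := hz
    rw [pow_mul, neg_sq, ← pow_mul, hz']
  · rintro k ⟨h1, h2, h3⟩
    refine ⟨?_, ?_, ?_⟩
    · show -z.2 = cr (dd a b) (G (-z.1.1, z.1.2) (vS a b v α k))
      rw [G_neg, cr_neg, h1]; rfl
    · show dt (dd a b) (G (-z.1.1, z.1.2) (nS α k)) < 0
      rw [G_neg, dt_neg]; exact neg_neg_of_pos h2
    · show dt (dd a b) (G (-z.1.1, z.1.2) (nS α (k - 1))) < 0
      rw [G_neg, dt_neg]; exact neg_neg_of_pos h3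
  · rintro k ⟨h1, h2, h3⟩
    refine ⟨?_, ?_, ?_⟩
    · show -z.2 = cr (dd a b) (G (-z.1.1, z.1.2) (vS a b v α k))
      rw [G_neg, cr_neg, h1]; rfl
    · show 0 < dt (dd a b) (G (-z.1.1, z.1.2) (nS α k))
      rw [G_neg, dt_neg]; exact neg_pos_of_neg h2
    · show 0 < dt (dd a b) (G (-z.1.1, z.1.2) (nS α (k - 1)))
      rw [G_neg, dt_neg]; exact neg_pos_of_neg h3

/-- **RE** -/
theorem t_RE : S_EX → S_RE := fun _ => t_RE'

end Pool.Agent.U451.BM.RE
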